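import Pool.Agent.H14R3.KK.Defs

/-! Task LMAXB of project KK (MP_d47e08_pr). -/

set_option autoImplicit false
open MeasureTheory ProbabilityTheory Filter Topology

namespace KK14

namespace LMAXBx

variable {ι : Type*} [Fintype ι]

theorem abs_le_one (v : ι → ℝ) (hv : ∑ i, v i ^ 2 = 1) (i : ι) : |v i| ≤ 1 := by
  have h1 : v i ^ 2 ≤ ∑ i, v i ^ 2 :=
    Finset.single_le_sum (f := fun i => v i ^ 2) (fun i _ => sq_nonneg _) (Finset.mem_univ i)
  rw [hv] at h1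
  exact abs_le_one_iff_mul_self_le_one.2 (by nlinarith)

theorem quad_le (A : Matrix ι ι ℝ) (v : ι → ℝ) (hv : ∑ i, v i ^ 2 = 1) :
    ∑ i, ∑ j, v i * A i j * v j ≤ ∑ i, ∑ j, |A i j| := by
  refine Finset.sum_le_sum fun i _ => Finset.sum_le_sum fun j _ => ?_
  refine (le_abs_self _).trans ?_
  rw [abs_mul, abs_mul]
  have h1 := abs_le_one v hv i
  have h2 := abs_le_one v hv j
  have h3 := abs_nonneg (v i)
  have h4 := abs_nonneg (v j)
  have h5 := abs_nonneg (A i j)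
  calc |v i| * |A i j| * |v j| ≤ 1 * |A i j| * 1 := by gcongr
    _ = |A i j| := by ring

theorem bdd (A : Matrix ι ι ℝ) :
    BddAbove (Set.range fun v : {v : ι → ℝ // ∑ i, v i ^ 2 = 1} =>
      ∑ i, ∑ j, v.1 i * A i j * v.1 j) := by
  refine ⟨∑ i, ∑ j, |A i j|, ?_⟩
  rintro _ ⟨v, rfl⟩
  exact quad_le A v.1 v.2

theorem exists_unit [Nonempty ι] : ∃ v : ι → ℝ, ∑ i, v i ^ 2 = 1 := by
  classical
  obtain ⟨i₀⟩ := ‹Nonempty ι›
  refine ⟨Pi.single i₀ 1, ?_⟩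
  rw [Finset.sum_eq_single i₀]
  · simp
  · intro b _ hb
    simp [Pi.single_eq_of_ne hb]
  · intro h
    exact absurd (Finset.mem_univ _) h

theorem compact_sphere : IsCompact {v : ι → ℝ | ∑ i, v i ^ 2 = 1} := by
  have hc : IsClosed {v : ι → ℝ | ∑ i, v i ^ 2 = 1} :=
    isClosed_eq (by fun_prop) continuous_const
  have hs : {v : ι → ℝ | ∑ i, v i ^ 2 = 1} ⊆ Set.pi Set.univ fun _ : ι => Set.Icc (-1 : ℝ) 1 := by
    intro v hv i _
    exact abs_le.1 (abs_le_one v hv i)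
  exact (isCompact_univ_pi fun _ => isCompact_Icc).of_isClosed_subset hc hs

end LMAXBx

open LMAXBx

/-- the Rayleigh quotient of a unit vector is at most `lmax` -/
theorem LMAXB {ι : Type*} [Fintype ι] (A : Matrix ι ι ℝ) (v : ι → ℝ) (hv : ∑ i, v i ^ 2 = 1) :
    ∑ i, ∑ j, v i * A i j * v j ≤ lmax A :=
  le_ciSup (bdd A) (⟨v, hv⟩ : {v : ι → ℝ // ∑ i, v i ^ 2 = 1})

/-- upper bounds -/
theorem LMAXU {ι : Type*} [Fintype ι] [Nonempty ι] (A : Matrix ι ι ℝ) (c : ℝ)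
    (h : ∀ v : ι → ℝ, ∑ i, v i ^ 2 = 1 → ∑ i, ∑ j, v i * A i j * v j ≤ c) : lmax A ≤ c := by
  obtain ⟨v₀, hv₀⟩ := exists_unit (ι := ι)
  have : Nonempty {v : ι → ℝ // ∑ i, v i ^ 2 = 1} := ⟨⟨v₀, hv₀⟩⟩
  exact ciSup_le fun v => h v.1 v.2

/-- the maximum is attained -/
theorem LMAXX {ι : Type*} [Fintype ι] [Nonempty ι] (A : Matrix ι ι ℝ) :
    ∃ v : ι → ℝ, ∑ i, v i ^ 2 = 1 ∧ lmax A = ∑ i, ∑ j, v i * A i j * v j := by
  obtain ⟨v₀, hv₀⟩ := exists_unit (ι := ι)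
  obtain ⟨v, hv, hmax⟩ := compact_sphere (ι := ι).exists_isMaxOn ⟨v₀, hv₀⟩
    (f := fun v : ι → ℝ => ∑ i, ∑ j, v i * A i j * v j) (by fun_prop)
  refine ⟨v, hv, le_antisymm (LMAXU A _ fun u hu => ?_) (LMAXB A v hv)⟩
  exact hmax hu

/-- `lmax` is Lipschitz -/
theorem LMAXL {ι : Type*} [Fintype ι] (A B : Matrix ι ι ℝ) :
    lmax A ≤ lmax B + ∑ i, ∑ j, |A i j - B i j| := by
  rcases isEmpty_or_nonempty ι with hι | hι
  · haveI : IsEmpty {v : ι → ℝ // ∑ i, v i ^ 2 = 1} := by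
      constructor
      rintro ⟨v, hv⟩
      simp at hv
    unfold lmax
    rw [Real.iSup_of_isEmpty, Real.iSup_of_isEmpty]
    simp
  · refine LMAXU A _ fun v hv => ?_
    have h1 := LMAXB B v hv
    have h2 := quad_le (A - B) v hv
    have h3 : ∑ i, ∑ j, v i * A i j * v j =
        ∑ i, ∑ j, v i * B i j * v j + ∑ i, ∑ j, v i * (A - B) i j * v j := by
      rw [← Finset.sum_add_distrib]
      refine Finset.sum_congr rfl fun i _ => ?_
      rw [← Finset.sum_add_distrib]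
      refine Finset.sum_congr rfl fun j _ => ?_
      rw [Matrix.sub_apply]
      ring
    rw [h3]
    exact add_le_add h1 h2

end KK14
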